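import Pool.Agent.TH408.GR.All

/-!
# Asymmetric growth in alternating groups

For every `δ > 0` there is `ε > 0` such that for all `n ≥ 5` and all subsets `A`, `B` of `Alt(n)`
with `|B| ≤ |Alt(n)|^(1-δ)` some `g` in `Alt(n)` satisfies `|B A^g| ≥ |B| |A|^ε`.
-/

set_option autoImplicit false

open scoped Pointwise

namespace Pool.Agent.Results.MP_f20ab1_al.AsymmetricGrowth

open Pool.Agent.TH408.GR

/-- The set `B A^g`. -/
theorem bag_card {n : ℕ} (A B : Finset (alternatingGroup (Fin n)))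
    (g : alternatingGroup (Fin n)) :
    (bag B A g).card = (B * A.image (fun a => g⁻¹ * a * g)).card := by
  have h : bag B A g = B * A.image (fun a => g⁻¹ * a * g) := by
    ext x
    unfold bag
    rw [Finset.mem_mul]
    simp only [Finset.mem_image, Finset.mem_product, Prod.exists]
    constructor
    · rintro ⟨b, a, ⟨hb, ha⟩, rfl⟩
      exact ⟨b, hb, g⁻¹ * a * g, ⟨a, ha, rfl⟩, rfl⟩
    · rintro ⟨b, hb, y, ⟨a, ha, rfl⟩, rfl⟩
      exact ⟨b, a, ⟨hb, ha⟩, rfl⟩
  rw [h]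

/-- Asymmetric growth in alternating groups: for every `δ > 0` there is `ε > 0` such that for all
`n ≥ 5` and all subsets `A`, `B` of `Alt(n)` with `|B| ≤ |Alt(n)|^(1-δ)` some `g` in `Alt(n)`
satisfies `|B| |A|^ε ≤ |B A^g|`, where `A^g` is the set of all `g⁻¹ a g` with `a` in `A`. -/
theorem result : ∀ δ : ℝ, 0 < δ → ∃ ε : ℝ, 0 < ε ∧
    ∀ n : ℕ, 5 ≤ n → ∀ A B : Finset (alternatingGroup (Fin n)),
      (B.card : ℝ) ≤ (Nat.card (alternatingGroup (Fin n)) : ℝ) ^ (1 - δ) →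
        ∃ g : alternatingGroup (Fin n),
          (B.card : ℝ) * (A.card : ℝ) ^ ε ≤
            ((B * A.image (fun a => g⁻¹ * a * g)).card : ℝ) := by
  intro δ hδ
  obtain ⟨ε, hε, h⟩ := final δ hδ
  refine ⟨ε, hε, fun n hn A B hB => ?_⟩
  rw [Nat.card_eq_fintype_card] at hB
  obtain ⟨g, hg⟩ := h n hn A B hB
  refine ⟨g, ?_⟩
  rwa [← bag_card]

end Pool.Agent.Results.MP_f20ab1_al.AsymmetricGrowth
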